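import Pool.Agent.Lib.MP_e508a7_gt.Fv.Wt
import Pool.Agent.Lib.MP_e508a7_gt.LqKey

/-! Polytopes with few vertices. -/

set_option autoImplicit false

namespace Pool.Agent.Lib.MP_e508a7_gt.Fv

open MeasureTheory Set Pointwise

variable {n N : ℕ} {K : Set (EuclideanSpace ℝ (Fin n))}

theorem lower (v : Fin N → EuclideanSpace ℝ (Fin n)) (b : Fin N → ℝ) (b0 : ∀ i, 0 ≤ b i)
    (b1 : ∑ i, b i = 1) (b2 : ∑ i, b i • v i = 0) :
    2 ^ n * WW (fun i => lift (b i) (b i • v i)) ≤
      volume {x | x ∈ convexHull ℝ (range v) ∧ -x ∈ convexHull ℝ (range v)} := by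
  obtain ⟨P, p1, p2, p3⟩ := tiles fun i => lift (b i) (b i • v i)
  set B := {x | x ∈ convexHull ℝ (range v) ∧ -x ∈ convexHull ℝ (range v)}
  let A := Fintype.linearCombination ℝ fun i => b i • v i
  let H := Fintype.linearCombination ℝ b
  have mid : ∀ t t' : Fin N → ℝ, t ∈ Icc (0 : Fin N → ℝ) 2 → t' ∈ Icc (0 : Fin N → ℝ) 2 →
      H t = H t' → (1 / 2 : ℝ) • (A t - A t') ∈ convexHull ℝ (range v) := by
    intro t t' h1 h2 h3
    simp only [H, Fintype.linearCombination_apply, smul_eq_mul] at h3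
    refine mem_convexHull_of_exists_fintype (fun i => b i + 1 / 2 * (t i * b i - t' i * b i)) v
      (fun i => ?_) ?_ mem_range_self ?_
    · have k1 : 0 ≤ t i := h1.1 i
      have k2 : t' i ≤ 2 := h2.2 i
      nlinarith [b0 i]
    · rw [Finset.sum_add_distrib, ← Finset.mul_sum, Finset.sum_sub_distrib, h3, b1]
      simp
    · simp only [A, Fintype.linearCombination_apply, add_smul, Finset.sum_add_distrib, b2, zero_add,
        mul_smul, sub_smul, ← Finset.smul_sum, Finset.sum_sub_distrib]
  have key : ∀ s : ℝ, volume (lift s ⁻¹' P) ≤ (Icc (0 : ℝ) 2).indicator (fun _ => volume B) s := by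
    intro s
    have sub : lift s ⁻¹' P ⊆ A '' (Icc 0 2 ∩ H ⁻¹' {s}) := fun x hx => by
      obtain ⟨t, t1, t2⟩ := p3 _ hx
      rw [lift_sum] at t2
      exact ⟨t, ⟨⟨fun i => (t1 i).1, fun i => (t1 i).2⟩,
        (Fintype.linearCombination_apply _ _ _).trans (lift_inj t2).1.symm⟩,
        (Fintype.linearCombination_apply _ _ _).trans (lift_inj t2).2.symm⟩
    refine (measure_mono sub).trans ?_
    by_cases hs : s ∈ Icc (0 : ℝ) 2
    · rw [indicator_of_mem hs]
      refine Lq.bm_ref
        (((convex_Icc _ _).inter ((convex_singleton s).linear_preimage H)).linear_image A)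
        ((isCompact_Icc.inter_right (isClosed_singleton.preimage
          H.continuous_of_finiteDimensional)).image A.continuous_of_finiteDimensional) 0
        (l := 1 / 2) (by norm_num) (by norm_num) ?_
      rintro _ ⟨t, ⟨t1, t2⟩, rfl⟩ _ ⟨t', ⟨t3, t4⟩, rfl⟩
      have e : H t = H t' := t2.trans (Eq.symm t4)
      exact ⟨by convert mid t t' t1 t3 e using 1; module,
        by convert mid t' t t3 t1 e.symm using 1; module⟩
    · rw [(_ : Icc 0 2 ∩ H ⁻¹' {s} = ∅), image_empty, measure_empty]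
      · exact zero_le
      refine eq_empty_of_forall_notMem fun t ⟨t1, t2⟩ => hs ?_
      have e : ∑ i, t i • b i = s := (Fintype.linearCombination_apply _ _ _).symm.trans t2
      rw [← e]
      refine ⟨Finset.sum_nonneg fun i _ => mul_nonneg (t1.1 i) (b0 i), ?_⟩
      rw [← mul_one (2 : ℝ), ← b1, Finset.mul_sum]
      exact Finset.sum_le_sum fun i _ => mul_le_mul_of_nonneg_right (t1.2 i) (b0 i)
  have h1 : volume P ≤ volume B * 2 := by
    rw [← lintegral_indicator_one p1, slice (measurable_one.indicator p1)]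
    refine (lintegral_mono fun s => le_trans ?_ (key s)).trans_eq ?_
    · rw [← lintegral_indicator_one (lift_meas s p1)]
      exact le_rfl
    · rw [lintegral_indicator_const measurableSet_Icc]
      simp
  have h2 := p2.trans h1
  rw [pow_succ, mul_right_comm] at h2
  exact (ENNReal.mul_le_mul_iff_left two_ne_zero ENNReal.ofNat_ne_top).1 h2

theorem level (hK : IsCompact K) (h0 : (∫ x in K, x) = 0) (η : EuclideanSpace ℝ (Fin n)) (c : ℝ)
    {s : ℝ} (hs : 0 < s) : ENNReal.ofReal (s ^ n * Real.exp (-(c * s))) * volume K ≤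
      ∫⁻ x in s • K, ENNReal.ofReal (Real.exp (-(c * (s + inner ℝ η x)))) := by
  have h1 := Measure.setIntegral_comp_smul_of_pos volume
    (fun x => Real.exp (-(c * (s + inner ℝ η x)))) K hs
  have h2 : ∫ x in K, Real.exp (-(c * s)) * (1 + inner ℝ (-(c * s) • η) x) ≤
      ∫ x in K, Real.exp (-(c * (s + inner ℝ η (s • x)))) := by
    refine setIntegral_mono_on (Continuous.continuousOn (by fun_prop) |>.integrableOn_compact hK)
      (Continuous.continuousOn (by fun_prop) |>.integrableOn_compact hK) hK.measurableSet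
      fun x _ => ?_
    rw [mul_add c, neg_add, Real.exp_add, inner_smul_right, real_inner_smul_left]
    refine mul_le_mul_of_nonneg_left ?_ (Real.exp_pos _).le
    linarith [Real.add_one_le_exp (-(c * (s * inner ℝ η x)))]
  rw [integral_const_mul, int_aff hK h0, h1, finrank_euclideanSpace_fin, smul_eq_mul,
    le_inv_mul_iff₀ (by positivity), ← mul_assoc] at h2
  rw [← ofReal_integral_eq_lintegral_ofReal
    (Continuous.continuousOn (by fun_prop) |>.integrableOn_compact (hK.smul s))
    (.of_forall fun _ => (Real.exp_pos _).le), ← ofReal_measureReal hK.measure_lt_top.ne,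
    ← ENNReal.ofReal_mul (by positivity)]
  exact ENNReal.ofReal_le_ofReal h2

theorem gam (n : ℕ) {c : ℝ} (hc : 0 < c) : ENNReal.ofReal (n.factorial / c ^ (n + 1)) ≤
    ∫⁻ s in Ioi (0 : ℝ), ENNReal.ofReal (s ^ n * Real.exp (-(c * s))) := by
  have h1 := Real.integral_rpow_mul_exp_neg_mul_Ioi (a := n + 1) (by positivity) hc
  rw [Real.Gamma_nat_eq_factorial, ← Nat.cast_succ, Real.rpow_natCast] at h1
  simp only [Nat.cast_succ, add_sub_cancel_right, Real.rpow_natCast] at h1
  rw [div_eq_inv_mul, ← inv_pow, ← one_div, ← h1]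
  refine (Real.ofReal_le_enorm _).trans ((enorm_integral_le_lintegral_enorm _).trans_eq ?_)
  exact setLIntegral_congr_fun measurableSet_Ioi fun s (hs : 0 < s) =>
    Real.enorm_of_nonneg (by positivity)

theorem upper (v : Fin N → EuclideanSpace ℝ (Fin n)) (hK : K = convexHull ℝ (range v))
    (hN : n + 1 ≤ N) (h0 : (∫ x in K, x) = 0) (η : EuclideanSpace ℝ (Fin n)) (b : Fin N → ℝ)
    {c : ℝ} (c0 : 0 < c) (b0 : ∀ i, 0 < b i) (b1 : ∀ i, c * (b i * (1 + inner ℝ η (v i))) = 1) :
    ENNReal.ofReal (n.factorial / c ^ (n + 1)) * volume K ≤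
      WW fun i => lift (b i) (b i • v i) := by
  have hc : IsCompact K := hK ▸ (finite_range v).isCompact_convexHull ℝ
  let L : (Fin (n + 1) → ℝ) →ₗ[ℝ] ℝ :=
    c • (LinearMap.proj 0 + ∑ j, η j • LinearMap.proj (Fin.succ j))
  have hL : ∀ s x, L (lift s x) = c * (s + inner ℝ η x) := fun s x => by
    simp [L, lift, PiLp.inner_apply, mul_comm, mul_add]
  let C : Set (Fin (n + 1) → ℝ) :=
    {y | 0 < y 0} ∩ (fun y => (y 0)⁻¹ • WithLp.toLp 2 fun j => y (Fin.succ j)) ⁻¹' K
  have mC : MeasurableSet C := (measurableSet_lt measurable_const (by fun_prop)).inter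
    (hc.measurableSet.preimage (by fun_prop))
  refine le_trans ?_ (cone _ L (fun i => ?_) (C := C) fun y hy => ?_)
  · rw [← lintegral_indicator mC, slice (Measurable.indicator (by fun_prop) mC)]
    refine (mul_le_mul_left (gam n c0) _).trans ?_
    rw [← lintegral_mul_const _ (by fun_prop), ← lintegral_indicator measurableSet_Ioi]
    refine lintegral_mono (indicator_le' (fun s hs => ?_) fun _ _ => zero_le)
    refine (level hc h0 η c hs).trans ?_
    rw [← lintegral_indicator (hc.smul s).measurableSet]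
    refine lintegral_mono (indicator_le' (fun x hx => ?_) fun _ _ => zero_le)
    rw [indicator_of_mem (show lift s x ∈ C from ⟨hs,
      (mem_smul_set_iff_inv_smul_mem₀ (ne_of_gt hs) _ _).1 hx⟩), hL]
  · rw [hL, inner_smul_right, ← b1 i]
    ring
  · obtain ⟨S, a, a1, a2, a3, a4⟩ := cara v hN (hK ▸ hy.2)
    have y0 : 0 < y 0 := hy.1
    refine ⟨S, fun j => y 0 * a (en S j) / b (en S j), fun j => ?_, ?_⟩
    · have := b0 (en S j)
      have := a1 (en S j)
      positivity
    rw [TT_sum _ S (fun i => y 0 * a i / b i) fun i hi => by simp [a2 i hi], lift_sum]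
    simp only [smul_smul, smul_eq_mul, fun i => div_mul_cancel₀ (y 0 * a i) (b0 i).ne']
    simp only [mul_smul, ← Finset.smul_sum, ← Finset.mul_sum, a3, a4, smul_inv_smul₀ y0.ne']
    funext j
    refine Fin.cases ?_ (fun j => ?_) j <;> simp [lift]

theorem main (v : Fin N → EuclideanSpace ℝ (Fin n)) (hK : K = convexHull ℝ (range v))
    (hi : (interior K).Nonempty) (h0 : (∫ x in K, x) = 0) :
    ENNReal.ofReal (2 ^ n * n.factorial / (N : ℝ) ^ (n + 1)) * volume K ≤
      volume {x | x ∈ K ∧ -x ∈ K} := by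
  obtain ⟨η, h1, h2⟩ := weights v hK hi h0
  have hN := card_ge v (hK ▸ hi)
  have N0 : (0 : ℝ) < N := Nat.cast_pos.2 (by omega)
  have h3 : ∑ i, (1 + inner ℝ η (v i))⁻¹ = N := by
    have h4 := congrArg (inner ℝ η) h2
    have h5 : ∑ i, (1 + inner ℝ η (v i))⁻¹ * (1 + inner ℝ η (v i)) = N := by
      simp [fun i => inv_mul_cancel₀ (h1 i).ne']
    simp only [inner_sum, inner_smul_right, inner_zero_right] at h4
    simp only [mul_add, mul_one, Finset.sum_add_distrib] at h5
    linarith
  have b0 : ∀ i, 0 < (N : ℝ)⁻¹ * (1 + inner ℝ η (v i))⁻¹ := fun i => by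
    have := h1 i
    positivity
  have k1 := upper v hK hN h0 η _ N0 b0 fun i => by
    have := h1 i
    field_simp
  have k2 := lower v _ (fun i => (b0 i).le) (by rw [← Finset.mul_sum, h3, inv_mul_cancel₀ N0.ne'])
    (by simp only [mul_smul, ← Finset.smul_sum, h2, smul_zero])
  rw [← hK] at k2
  refine le_trans ?_ ((mul_le_mul_right k1 _).trans k2)
  rw [mul_div_assoc, ENNReal.ofReal_mul (by positivity), mul_assoc, ENNReal.ofReal_pow two_pos.le,
    ENNReal.ofReal_ofNat]

end Pool.Agent.Lib.MP_e508a7_gt.Fv
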