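import Mathlib

/-! Zonotopes and cones over a finite family of vectors. -/

set_option autoImplicit false

namespace Pool.Agent.Lib.MP_e508a7_gt.Fv

open MeasureTheory Set

variable {N m : ℕ}

/-- Sets of `m` indices. -/
abbrev Ix (N m : ℕ) : Type := {S : Finset (Fin N) // S.card = m}

/-- The increasing enumeration. -/
def en (S : Ix N m) : Fin m → Fin N := S.1.orderEmbOfFin S.2

/-- The linear map whose columns are the chosen vectors. -/
noncomputable def TT (w : Fin N → Fin m → ℝ) (S : Ix N m) : (Fin m → ℝ) →ₗ[ℝ] Fin m → ℝ :=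
  Fintype.linearCombination ℝ fun j => w (en S j)

/-- The sum of the absolute determinants. -/
noncomputable def WW (w : Fin N → Fin m → ℝ) : ENNReal :=
  ∑ S : Ix N m, ENNReal.ofReal |LinearMap.det (TT w S)|

theorem en_inj (S : Ix N m) : Function.Injective (en S) := (S.1.orderEmbOfFin S.2).injective

theorem en_range (S : Ix N m) (i : Fin N) : i ∈ range (en S) ↔ i ∈ S.1 := by
  have := S.1.range_orderEmbOfFin S.2
  rw [← Finset.mem_coe, ← this]
  rfl

theorem TT_apply (w : Fin N → Fin m → ℝ) (S : Ix N m) (t : Fin m → ℝ) :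
    TT w S t = ∑ j, t j • w (en S j) := Fintype.linearCombination_apply _ _ _

theorem TT_sum (w : Fin N → Fin m → ℝ) (S : Ix N m) (c : Fin N → ℝ) (hc : ∀ i ∉ S.1, c i = 0) :
    TT w S (fun j => c (en S j)) = ∑ i, c i • w i := by
  rw [TT_apply]
  refine Fintype.sum_of_injective (en S) (en_inj S) _ _ (fun i hi => ?_) fun _ => rfl
  rw [hc i (mt (en_range S i).2 hi), zero_smul]

theorem inj_of_det {T : (Fin m → ℝ) →ₗ[ℝ] Fin m → ℝ} (h : LinearMap.det T ≠ 0) :
    Function.Injective T := (T.equivOfDetNeZero h).injective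

/-- Generic heights. -/
theorem heights (w : Fin N → Fin m → ℝ) : ∃ (ω : Fin N → ℝ) (l : Ix N m → (Fin m → ℝ) →ₗ[ℝ] ℝ),
    ∀ S, (∀ i ∉ S.1, ω i - l S (w i) ≠ 0) ∧
      (LinearMap.det (TT w S) ≠ 0 → ∀ i ∈ S.1, ω i - l S (w i) = 0) := by
  classical
  have h1 : ∀ S : Ix N m, ∃ R : (Fin m → ℝ) →ₗ[ℝ] Fin m → ℝ, LinearMap.det (TT w S) ≠ 0 →
      ∀ t, R (TT w S t) = t := fun S => by
    by_cases h : LinearMap.det (TT w S) = 0
    · exact ⟨0, fun k => absurd h k⟩
    · exact ⟨((TT w S).equivOfDetNeZero h).symm, fun _ t =>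
        ((TT w S).equivOfDetNeZero h).symm_apply_apply t⟩
  choose R hR using h1
  obtain ⟨ω, hω⟩ := Module.Dual.exists_forall_ne_zero_of_forall_exists (K := ℝ)
    (fun p : {p : Ix N m × Fin N // p.2 ∉ p.1.1} => (LinearMap.proj p.1.2 -
      ∑ j, R p.1.1 (w p.1.2) j • LinearMap.proj (en p.1.1 j) : (Fin N → ℝ) →ₗ[ℝ] ℝ))
    fun p => ⟨Pi.single p.1.2 1, by
      have h : ∀ j, en p.1.1 j ≠ p.1.2 := fun j e => p.2 ((en_range _ _).1 ⟨j, e⟩)
      simp [h]⟩
  refine ⟨ω, fun S => Fintype.linearCombination ℝ (fun j => ω (en S j)) ∘ₗ R S, fun S =>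
    ⟨fun i hi => ?_, fun h i hi => ?_⟩⟩
  · simpa [Fintype.linearCombination_apply] using hω ⟨(S, i), hi⟩
  · obtain ⟨j, rfl⟩ := (en_range S i).2 hi
    have e : w (en S j) = TT w S (Pi.single j 1) := by
      simp [TT]
    rw [LinearMap.comp_apply, e, hR S h]
    simp

theorem tiles (w : Fin N → Fin m → ℝ) : ∃ P : Set (Fin m → ℝ), MeasurableSet P ∧
    2 ^ m * WW w ≤ volume P ∧
      ∀ y ∈ P, ∃ t : Fin N → ℝ, (∀ i, t i ∈ Icc (0 : ℝ) 2) ∧ y = ∑ i, t i • w i := by
  classical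
  obtain ⟨ω, l, h⟩ := heights w
  let a : Ix N m → Fin N → ℝ := fun S i => if 0 < ω i - l S (w i) then 2 else 0
  let P : Ix N m → Set (Fin m → ℝ) := fun S =>
    (fun y => ∑ i, a S i • w i + y) '' (TT w S '' pi univ fun _ => Ioo (0 : ℝ) 2)
  let G := Finset.univ.filter fun S : Ix N m => LinearMap.det (TT w S) ≠ 0
  have a2 : ∀ S i, a S i ∈ Icc (0 : ℝ) 2 := fun S i => by
    dsimp only [a]
    split_ifs <;> simp
  have rep : ∀ S ∈ G, ∀ y ∈ P S, ∃ t : Fin N → ℝ, (∀ i ∈ S.1, t i ∈ Ioo (0 : ℝ) 2) ∧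
      (∀ i ∉ S.1, t i = a S i) ∧ y = ∑ i, t i • w i := by
    rintro S hS _ ⟨_, ⟨u, hu, rfl⟩, rfl⟩
    have z : ∀ i ∉ S.1, Function.extend (en S) u 0 i = 0 := fun i hi =>
      Function.extend_apply' _ _ _ (mt (en_range S i).1 hi)
    refine ⟨fun i => a S i + Function.extend (en S) u 0 i, fun i hi => ?_, fun i hi => ?_, ?_⟩
    · have h0 : a S i = 0 := if_neg (by
        rw [(h S).2 (Finset.mem_filter.1 hS).2 i hi]; exact lt_irrefl _)
      obtain ⟨j, rfl⟩ := (en_range S i).2 hi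
      beta_reduce
      rw [h0, zero_add, (en_inj S).extend_apply]
      exact hu j trivial
    · beta_reduce
      rw [z i hi, add_zero]
    · simp only [add_smul, Finset.sum_add_distrib, ← TT_sum w S _ z, (en_inj S).extend_apply]
  have rep2 : ∀ S, ∀ t : Fin N → ℝ, (∀ i ∈ S.1, t i ∈ Ioo (0 : ℝ) 2) → (∀ i ∉ S.1, t i = a S i) →
      ∀ i, t i ∈ Icc (0 : ℝ) 2 := fun S t h1 h2 i => by
    by_cases hi : i ∈ S.1
    · exact Ioo_subset_Icc_self (h1 i hi)
    · rw [h2 i hi]; exact a2 S i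
  have opt : ∀ S ∈ G, ∀ t t' : Fin N → ℝ, (∀ i ∉ S.1, t i = a S i) → (∀ i, t' i ∈ Icc (0 : ℝ) 2) →
      ∑ i, t i • w i = ∑ i, t' i • w i → (∀ i, 0 ≤ (t i - t' i) * (ω i - l S (w i))) ∧
      ∑ i, (t i - t' i) * (ω i - l S (w i)) = ∑ i, t i * ω i - ∑ i, t' i * ω i := by
    intro S hS t t' h1 h2 h3
    refine ⟨fun i => ?_, ?_⟩
    · by_cases hi : i ∈ S.1
      · rw [(h S).2 (Finset.mem_filter.1 hS).2 i hi, mul_zero]
      · rw [h1 i hi]
        dsimp only [a]
        split_ifs with k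
        · exact mul_nonneg (sub_nonneg.2 (h2 i).2) k.le
        · exact mul_nonneg_of_nonpos_of_nonpos (sub_nonpos.2 (h2 i).1) (not_lt.1 k)
    · have h4 := congrArg (l S) h3
      simp only [map_sum, map_smul, smul_eq_mul] at h4
      simp only [sub_mul, mul_sub, Finset.sum_sub_distrib]
      linarith
  have meas : ∀ S ∈ G, MeasurableSet (P S) := fun S hS => by
    refine (MeasurableEquiv.addLeft _).measurableEmbedding.measurableSet_image.2 ?_
    exact (MeasurableSet.univ_pi fun _ => measurableSet_Ioo).image_of_continuousOn_injOn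
      (TT w S).continuous_of_finiteDimensional.continuousOn
      (inj_of_det (Finset.mem_filter.1 hS).2).injOn
  have dis : PairwiseDisjoint (G : Set (Ix N m)) P := fun S hS S' hS' ne => by
    refine disjoint_left.2 fun y h1 h2 => ?_
    obtain ⟨t, t1, t2, t3⟩ := rep S hS y h1
    obtain ⟨s, s1, s2, s3⟩ := rep S' hS' y h2
    obtain ⟨k1, k2⟩ := opt S hS t s t2 (rep2 S' s s1 s2) (t3.symm.trans s3)
    obtain ⟨k3, k4⟩ := opt S' hS' s t s2 (rep2 S t t1 t2) (s3.symm.trans t3)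
    have k5 := Finset.sum_nonneg fun i (_ : i ∈ Finset.univ) => k1 i
    have k6 := Finset.sum_nonneg fun i (_ : i ∈ Finset.univ) => k3 i
    have k7 := (Finset.sum_eq_zero_iff_of_nonneg fun i (_ : i ∈ Finset.univ) => k1 i).1
      (by linarith)
    obtain ⟨i, i1, i2⟩ : ∃ i ∈ S'.1, i ∉ S.1 := by
      by_contra! k
      exact ne (Subtype.ext (Finset.eq_of_subset_of_card_le k (S.2.trans S'.2.symm).le).symm)
    have k8 := (mul_eq_zero.1 (k7 i (Finset.mem_univ _))).resolve_right ((h S).1 i i2)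
    have k9 := s1 i i1
    rw [← sub_eq_zero.1 k8, t2 i i2] at k9
    dsimp only [a] at k9
    split_ifs at k9 <;> simp at k9
  refine ⟨⋃ S ∈ G, P S, Finset.measurableSet_biUnion _ meas, ?_, fun y hy => ?_⟩
  · rw [measure_biUnion_finset dis meas, WW, Finset.mul_sum, Finset.sum_filter]
    refine Finset.sum_le_sum fun S _ => ?_
    split_ifs with k
    · dsimp only [P]
      rw [image_add_left, measure_preimage_add, Measure.addHaar_image_linearMap,
        Real.volume_pi_Ioo, mul_comm]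
      simp
    · simp [not_not.1 k]
  · obtain ⟨S, hS, hy⟩ := mem_iUnion₂.1 hy
    obtain ⟨t, t1, t2, t3⟩ := rep S hS y hy
    exact ⟨t, rep2 S t t1 t2, t3⟩

theorem orthant (m : ℕ) : ∫⁻ t in pi univ fun _ : Fin m => Ici (0 : ℝ),
    ENNReal.ofReal (Real.exp (-∑ j, t j)) = 1 := by
  have h1 : Integrable ((Ici (0 : ℝ)).indicator fun x => Real.exp (-x)) := by
    rw [integrable_indicator_iff measurableSet_Ici, integrableOn_Ici_iff_integrableOn_Ioi]
    exact integrableOn_exp_neg_Ioi 0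
  have h2 := integral_fintype_prod_volume_eq_pow (ι := Fin m)
    ((Ici (0 : ℝ)).indicator fun x => Real.exp (-x))
  rw [integral_indicator measurableSet_Ici, integral_Ici_eq_integral_Ioi, integral_exp_neg_Ioi_zero,
    one_pow] at h2
  have h3 : Integrable (fun x : Fin m → ℝ =>
      ∏ i, (Ici (0 : ℝ)).indicator (fun x => Real.exp (-x)) (x i)) volume :=
    Integrable.fintype_prod (f := fun _ => (Ici (0 : ℝ)).indicator fun x => Real.exp (-x))
      fun _ => h1
  rw [← lintegral_indicator (MeasurableSet.univ_pi fun _ => measurableSet_Ici),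
    ← ENNReal.ofReal_one, ← h2, ofReal_integral_eq_lintegral_ofReal
      h3 (.of_forall fun t => Finset.prod_nonneg fun j _ =>
        indicator_nonneg (fun _ _ => (Real.exp_pos _).le) _)]
  refine lintegral_congr fun t => ?_
  by_cases h : t ∈ pi univ fun _ : Fin m => Ici (0 : ℝ)
  · rw [indicator_of_mem h, ← Finset.sum_neg_distrib, Real.exp_sum]
    refine congrArg _ (Finset.prod_congr rfl fun j _ => ?_)
    rw [indicator_of_mem (show t j ∈ Ici (0 : ℝ) from h j trivial)]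
  · rw [indicator_of_notMem h]
    obtain ⟨j, hj⟩ := not_forall.1 (mt mem_univ_pi.2 h)
    rw [Finset.prod_eq_zero (Finset.mem_univ j) (indicator_of_notMem hj _), ENNReal.ofReal_zero]

theorem cone (w : Fin N → Fin m → ℝ) (L : (Fin m → ℝ) →ₗ[ℝ] ℝ) (hL : ∀ i, L (w i) = 1)
    {C : Set (Fin m → ℝ)} (hC : ∀ y ∈ C, ∃ S t, (∀ j, 0 ≤ t j) ∧ TT w S t = y) :
    ∫⁻ y in C, ENNReal.ofReal (Real.exp (-L y)) ≤ WW w := by
  have h1 : C ⊆ ⋃ S, TT w S '' pi univ fun _ : Fin m => Ici (0 : ℝ) := fun y hy => by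
    obtain ⟨S, t, h1, h2⟩ := hC y hy
    exact mem_iUnion.2 ⟨S, t, fun j _ => h1 j, h2⟩
  refine (lintegral_mono_set h1).trans ((lintegral_iUnion_le _ _).trans ?_)
  rw [tsum_fintype]
  refine Finset.sum_le_sum fun S _ => ?_
  by_cases h : LinearMap.det (TT w S) = 0
  · rw [setLIntegral_measure_zero _ _ (by rw [Measure.addHaar_image_linearMap, h]; simp)]
    exact zero_le
  · have h2 := lintegral_image_eq_lintegral_abs_det_fderiv_mul volume
      (MeasurableSet.univ_pi fun _ : Fin m => measurableSet_Ici (a := (0 : ℝ)))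
      (f := TT w S) (f' := fun _ => (TT w S).toContinuousLinearMap)
      (fun x _ => (TT w S).toContinuousLinearMap.hasFDerivWithinAt) (inj_of_det h).injOn
      fun y => ENNReal.ofReal (Real.exp (-L y))
    have h3 : ∀ t, L (TT w S t) = ∑ j, t j := fun t => by
      simp [TT_apply, hL]
    rw [h2, lintegral_const_mul' _ _ ENNReal.ofReal_ne_top]
    simp only [h3, orthant, mul_one]
    rfl

end Pool.Agent.Lib.MP_e508a7_gt.Fv
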