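import Pool.Agent.Lib.MP_e508a7_gt.Fv.Tile

/-! Weights on the vertices, Caratheodory's theorem with indices, and slices. -/

set_option autoImplicit false

namespace Pool.Agent.Lib.MP_e508a7_gt.Fv

open MeasureTheory Set Filter Topology

variable {n N : ℕ} {K : Set (EuclideanSpace ℝ (Fin n))}

theorem int_aff (hK : IsCompact K) (h0 : (∫ x in K, x) = 0) (η : EuclideanSpace ℝ (Fin n)) :
    ∫ x in K, (1 + inner ℝ η x) = volume.real K := by
  have h1 : IntegrableOn (fun x => x) K := continuous_id.continuousOn.integrableOn_compact hK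
  rw [integral_add (continuous_const.continuousOn.integrableOn_compact hK) (h1.const_inner η),
    integral_inner h1, h0]
  simp

theorem weights (v : Fin N → EuclideanSpace ℝ (Fin n)) (hK : K = convexHull ℝ (range v))
    (hi : (interior K).Nonempty) (h0 : (∫ x in K, x) = 0) :
    ∃ η : EuclideanSpace ℝ (Fin n), (∀ i, 0 < 1 + inner ℝ η (v i)) ∧
      ∑ i, (1 + inner ℝ η (v i))⁻¹ • v i = 0 := by
  have hc : IsCompact K := hK ▸ (finite_range v).isCompact_convexHull ℝ
  obtain ⟨x₀, hx₀⟩ := hi
  obtain ⟨r, r0, hr⟩ := Metric.mem_nhds_iff.1 (mem_interior_iff_mem_nhds.1 hx₀)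
  have hb : Metric.ball x₀ (r / 2) ⊆ K := (Metric.ball_subset_ball (half_le_self r0.le)).trans hr
  have hp : 0 < volume.real (Metric.ball x₀ (r / 2)) :=
    ENNReal.toReal_pos (Metric.measure_ball_pos _ _ (half_pos r0)).ne' measure_ball_lt_top.ne
  have hP : IsCompact {η : EuclideanSpace ℝ (Fin n) | ∀ i, 0 ≤ 1 + inner ℝ η (v i)} := by
    refine Metric.isCompact_of_isClosed_isBounded ?_ (isBounded_iff_forall_norm_le.2
      ⟨volume.real K / (r / 2 * volume.real (Metric.ball x₀ (r / 2))), fun η hη => ?_⟩)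
    · rw [ofPred_forall]
      exact isClosed_iInter fun i => isClosed_le continuous_const (by fun_prop)
    have h1 : K ⊆ {x | -1 ≤ inner ℝ η x} := by
      rw [hK]
      refine convexHull_min ?_ (convex_halfSpace_ge (innerₛₗ ℝ η).isLinear _)
      rintro _ ⟨i, rfl⟩
      have := hη i
      change -1 ≤ inner ℝ η (v i)
      linarith
    have h2 : IntegrableOn (fun x => 1 + inner ℝ η x) K :=
      Continuous.continuousOn (by fun_prop) |>.integrableOn_compact hc
    have h3 := setIntegral_mono_set h2 (ae_restrict_of_forall_mem hc.measurableSet fun x hx => by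
      have : -1 ≤ inner ℝ η x := h1 hx
      change (0 : ℝ) ≤ _
      linarith) hb.eventuallyLE
    have h4 := setIntegral_ge_of_const_le_real (c := r / 2 * ‖η‖) measurableSet_ball
      measure_ball_lt_top.ne (fun x hx => ?_) (h2.mono_set hb)
    · rw [int_aff hc h0] at h3
      rw [le_div_iff₀ (by positivity)]
      linarith
    rcases eq_or_ne η 0 with rfl | e
    · simp
    have h5 := norm_pos_iff.2 e
    have h6 : -1 ≤ inner ℝ η (x - (r / 2 / ‖η‖) • η) := h1 (hr (by
      rw [Metric.mem_ball, dist_eq_norm] at hx ⊢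
      have h7 := norm_sub_le (x - x₀) ((r / 2 / ‖η‖) • η)
      rw [norm_smul, Real.norm_of_nonneg (by positivity), div_mul_cancel₀ _ h5.ne'] at h7
      rw [sub_right_comm]
      linarith))
    rw [inner_sub_right, inner_smul_right, real_inner_self_eq_norm_mul_norm, ← mul_assoc,
      div_mul_cancel₀ _ h5.ne'] at h6
    linarith
  obtain ⟨η, h1, h2⟩ := hP.exists_isMaxOn ⟨0, fun i => by simp⟩
    (f := fun η => ∏ i, (1 + inner ℝ η (v i))) (by fun_prop)
  have h3 : ∀ i, 0 < 1 + inner ℝ η (v i) := fun i => (h1 i).lt_of_ne fun e => by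
    have h4 : ∏ i, (1 + inner ℝ (0 : EuclideanSpace ℝ (Fin n)) (v i)) ≤
      ∏ i, (1 + inner ℝ η (v i)) := h2 fun i => by simp
    rw [Finset.prod_eq_zero (f := fun i => 1 + inner ℝ η (v i)) (Finset.mem_univ i) e.symm] at h4
    norm_num at h4
  refine ⟨η, h3, ?_⟩
  set u := ∑ i, (1 + inner ℝ η (v i))⁻¹ • v i with hu
  have h4 : HasDerivAt (fun t : ℝ => ∑ i, Real.log (1 + inner ℝ η (v i) + t * inner ℝ u (v i)))
      (∑ i, inner ℝ u (v i) / (1 + inner ℝ η (v i) + 0 * inner ℝ u (v i))) 0 :=
    HasDerivAt.fun_sum fun i _ => ((hasDerivAt_mul_const _).const_add _).log (by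
      simpa using (h3 i).ne')
  have h5 : ∀ᶠ t : ℝ in 𝓝 0, ∀ i, 0 < 1 + inner ℝ η (v i) + t * inner ℝ u (v i) :=
    eventually_all.2 fun i => continuousAt_const.eventually_lt (by fun_prop) (by simpa using h3 i)
  have h6 := IsLocalMax.hasDerivAt_eq_zero (h5.mono fun t ht => by
    have e : ∀ i, 1 + inner ℝ (η + t • u) (v i) = 1 + inner ℝ η (v i) + t * inner ℝ u (v i) :=
      fun i => by rw [inner_add_left, real_inner_smul_left, add_assoc]
    have h7 : ∏ i, (1 + inner ℝ (η + t • u) (v i)) ≤ ∏ i, (1 + inner ℝ η (v i)) :=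
      h2 fun i => by rw [e]; exact (ht i).le
    simp only [e] at h7
    simp only [zero_mul, add_zero]
    rw [← Real.log_prod fun i _ => (ht i).ne', ← Real.log_prod fun i _ => (h3 i).ne']
    exact Real.log_le_log (Finset.prod_pos fun i _ => ht i) h7) h4
  rw [← inner_self_eq_zero (𝕜 := ℝ), ← h6]
  nth_rw 2 [hu]
  rw [inner_sum]
  refine Finset.sum_congr rfl fun i _ => ?_
  rw [inner_smul_right, zero_mul, add_zero, div_eq_inv_mul]

theorem card_ge (v : Fin N → EuclideanSpace ℝ (Fin n))
    (hi : (interior (convexHull ℝ (range v))).Nonempty) : n + 1 ≤ N := by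
  have h1 := affineSpan_eq_top_of_nonempty_interior hi
  rcases N with _ | N
  · simp at hi
  have h2 := finrank_vectorSpan_range_le ℝ v (Fintype.card_fin _)
  rw [← direction_affineSpan, h1, AffineSubspace.direction_top, finrank_top,
    finrank_euclideanSpace_fin] at h2
  omega

theorem cara (v : Fin N → EuclideanSpace ℝ (Fin n)) (hN : n + 1 ≤ N) {x : EuclideanSpace ℝ (Fin n)}
    (hx : x ∈ convexHull ℝ (range v)) : ∃ (S : Ix N (n + 1)) (c : Fin N → ℝ), (∀ i, 0 ≤ c i) ∧
      (∀ i ∉ S.1, c i = 0) ∧ ∑ i, c i = 1 ∧ ∑ i, c i • v i = x := by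
  classical
  obtain ⟨ι, _, z, w, h1, h2, h3, h4, h5⟩ := eq_pos_convex_span_of_mem_convexHull hx
  choose g hg using fun i => h1 (mem_range_self i)
  have inj : Function.Injective g := fun a b e => h2.injective (by rw [← hg, ← hg, e])
  have h6 := h2.card_le_finrank_succ.trans (Nat.succ_le_succ (Submodule.finrank_le _))
  rw [finrank_euclideanSpace_fin] at h6
  obtain ⟨S, s1, -, s2⟩ := Finset.exists_subsuperset_card_eq
    (Finset.subset_univ (Finset.univ.image g)) (Finset.card_image_le.trans h6) (by simpa using hN)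
  have z0 : ∀ i ∉ range g, Function.extend g w 0 i = 0 := fun i hi =>
    Function.extend_apply' _ _ _ hi
  refine ⟨⟨S, s2⟩, Function.extend g w 0, fun i => ?_, fun i hi => z0 i fun ⟨j, e⟩ =>
    hi (s1 (e ▸ Finset.mem_image_of_mem g (Finset.mem_univ j))), ?_, ?_⟩
  · by_cases h : i ∈ range g
    · obtain ⟨j, rfl⟩ := h
      rw [inj.extend_apply]
      exact (h3 j).le
    · exact (z0 i h).ge
  · rw [← h4]
    exact (Fintype.sum_of_injective g inj _ _ z0 fun j => (inj.extend_apply _ _ _).symm).symm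
  · rw [← h5]
    exact (Fintype.sum_of_injective g inj _ _ (fun i hi => by rw [z0 i hi, zero_smul])
      fun j => by rw [inj.extend_apply, hg]).symm

/-- A height and a point. -/
def lift (s : ℝ) (x : EuclideanSpace ℝ (Fin n)) : Fin (n + 1) → ℝ := Fin.cons s x.ofLp

theorem lift_sum (t b : Fin N → ℝ) (v : Fin N → EuclideanSpace ℝ (Fin n)) :
    ∑ i, t i • lift (b i) (v i) = lift (∑ i, t i • b i) (∑ i, t i • v i) := by
  funext j
  refine Fin.cases ?_ (fun j => ?_) j <;> simp [lift]

theorem lift_inj {s t : ℝ} {x y : EuclideanSpace ℝ (Fin n)} (h : lift s x = lift t y) :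
    s = t ∧ x = y :=
  ⟨congrFun h 0, PiLp.ext fun j => congrFun h j.succ⟩

theorem lift_meas (s : ℝ) : Measurable (lift (n := n) s) := by
  refine measurable_pi_lambda _ fun j => ?_
  refine Fin.cases ?_ (fun j => ?_) j <;> simp only [lift, Fin.cons_zero, Fin.cons_succ] <;>
    fun_prop

theorem slice {g : (Fin (n + 1) → ℝ) → ENNReal} (hg : Measurable g) :
    ∫⁻ y, g y = ∫⁻ s : ℝ, ∫⁻ x : EuclideanSpace ℝ (Fin n), g (lift s x) := by
  have h1 := (volume_preserving_piFinSuccAbove (fun _ : Fin (n + 1) => ℝ) 0).symm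
  rw [← h1.lintegral_comp hg, Measure.volume_eq_prod]
  refine (lintegral_prod _ (hg.comp h1.measurable).aemeasurable).trans
    (lintegral_congr fun s => ?_)
  refine ((PiLp.volume_preserving_ofLp (Fin n)).lintegral_comp
    ((hg.comp h1.measurable).comp measurable_prodMk_left)).symm.trans
    (lintegral_congr fun x => congrArg g ?_)
  simp [lift, MeasurableEquiv.piFinSuccAbove, Fin.insertNthEquiv]

end Pool.Agent.Lib.MP_e508a7_gt.Fv
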